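import Pool.Agent.K1H35.SH.Stm

/-! Project SH, piece UNI: the deterministic conclusion. -/

set_option autoImplicit false

namespace Pool.Agent.K1H28.SH

open Pool.Agent.K1H35.SH

theorem mem_nb {n : ℕ} (G : SimpleGraph (Fin n)) (v x : Fin n) : x ∈ nb G v ↔ G.Adj v x := by
  classical
  simp [nb]

theorem mem_TS {n : ℕ} (G : SimpleGraph (Fin n)) (u v w x : Fin n) :
    x ∈ TS G u v w ↔ (G.Adj u x ∧ G.Adj v x) ∧ ¬ G.Adj w x := by
  classical
  simp [TS, mem_nb]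

theorem core {n a : ℕ} (G : SimpleGraph (Fin n))
    (h1 : ∀ u v w, u ≠ v → u ≠ w → v ≠ w → a ≤ (TS G u v w).card)
    (h2 : ∀ α β : Fin a → Fin n, DisjPair α β → dis α β G ≠ 0)
    (u v u' v' : Fin n) (huv : G.Adj u v) (hf : ComIso G u v u' v') : u' = u ∨ u' = v := by
  classical
  by_contra hcon
  rw [not_or] at hcon
  obtain ⟨f, hfa⟩ := hf
  have hcard := h1 u v u' huv.ne (fun h => hcon.1 h.symm) (fun h => hcon.2 h.symm)
  obtain ⟨α, hαi, hαm⟩ : ∃ α : Fin a → Fin n, Function.Injective α ∧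
      ∀ i, (G.Adj u (α i) ∧ G.Adj v (α i)) ∧ ¬ G.Adj u' (α i) :=
    ⟨(TS G u v u').orderEmbOfCardLe hcard, ((TS G u v u').orderEmbOfCardLe hcard).injective,
      fun i => (mem_TS G u v u' _).1 (Finset.orderEmbOfCardLe_mem _ hcard i)⟩
  set β : Fin a → Fin n := fun i => (f ⟨α i, (hαm i).1⟩ : Fin n) with hβ
  refine h2 α β ⟨hαi, ?_, ?_⟩ ?_
  · intro i j h
    have h3 : (⟨α i, (hαm i).1⟩ : {x // G.Adj u x ∧ G.Adj v x}) = ⟨α j, (hαm j).1⟩ :=
      f.injective (Subtype.ext h)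
    exact hαi (congrArg Subtype.val h3)
  · intro i j h
    have h3 : G.Adj u' (β j) := (f ⟨α j, (hαm j).1⟩).2.1
    have h4 : α i = β j := h
    rw [← h4] at h3
    exact (hαm i).2 h3
  · unfold dis
    rw [Finset.card_eq_zero, Finset.filter_eq_empty_iff]
    intro p _ hp
    exact hp.2 (hfa ⟨α p.1, (hαm p.1).1⟩ ⟨α p.2, (hαm p.2).1⟩)

theorem comIso_swap {n : ℕ} {G : SimpleGraph (Fin n)} {u v u' v' : Fin n}
    (h : ComIso G u v u' v') : ComIso G u v v' u' := by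
  obtain ⟨f, hf⟩ := h
  exact ⟨f.trans (Equiv.subtypeEquivRight fun x => and_comm), hf⟩

/-- **Piece UNI.** -/
theorem t_UNI : S_UNI := by
  intro n a G h1 h2 u v u' v' huv huv' hf
  have h3 := core G h1 h2 u v u' v' huv hf
  have h4 := core G h1 h2 u v v' u' huv (comIso_swap hf)
  have h5 := huv'.ne
  rw [Sym2.eq_iff]
  rcases h3 with rfl | rfl <;> rcases h4 with rfl | rfl
  · exact absurd rfl h5
  · exact Or.inl ⟨rfl, rfl⟩
  · exact Or.inr ⟨rfl, rfl⟩
  · exact absurd rfl h5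

end Pool.Agent.K1H28.SH
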